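import Mathlib

/-!
# Khintchin sequences and product sequences of 2 and 3: definitions
-/

open MeasureTheory Set Filter Topology

namespace Pool.Agent.Lib.MP_83af8b_an

/-- The space `Ω₀ = {2,3}^ℕ` with the product of the discrete topologies. -/
abbrev Omega0 : Type := ℕ → ({2, 3} : Set ℕ)

/-- The product sequence `P_n(ω) = ω_n ω_{n-1} ⋯ ω_1`; in Lean the coordinates of `ω` are numbered
from `0`, so that `ω_{i+1}` is `ω i`. -/
def prodSeq (ω : Omega0) (n : ℕ) : ℕ := ∏ i ∈ Finset.range n, (ω i : ℕ)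

/-- `(lam n)_{n ≥ 1}` is a Khintchin sequence: for every integrable `f` on the circle `ℝ/ℤ` (with its
probability Haar measure) the averages `(1/N) ∑_{n=1}^N f (lam n • x)` converge to `∫ f` for almost
every `x`. -/
def IsKhintchin (lam : ℕ → ℕ) : Prop :=
  ∀ f : UnitAddCircle → ℝ, Integrable f →
    ∀ᵐ x : UnitAddCircle, Tendsto (fun N : ℕ => (∑ n ∈ Finset.Icc 1 N, f (lam n • x)) / N)
      atTop (𝓝 (∫ y, f y))

/-- `K_{2,3}`: the set of all `ω` whose product sequence is a Khintchin sequence. -/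
def K23 : Set Omega0 := {ω | IsKhintchin (prodSeq ω)}

end Pool.Agent.Lib.MP_83af8b_an
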