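import Pool.Agent.Lib.MP_83af8b_an.Defs

/-!
# The set `K_{2,3}` is meagre

Idea of the proof.  After any finite prefix we insert blocks of 2's of doubling lengths, separated by
single letters 3.  At the end of the `k`-th block at least half of the averaging window consists of
the points `2^n y`, `y = P x`, where `P = P_{start k}` is the product before the block.  We choose a
set `C` of measure about `1/(L R)` (a random union of tiny cells) and put
`E = {y : 2^i y ∈ C for some i < 2 L}`, which has measure at most about `2/R`.  If some point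
`2^(L+i) P_{start k} x` lies in `C`, then the whole block lies in `E` and the average is at least `1/2`.
The multipliers `2^(L+i) P_{start k}`, `k < m`, `i < L`, are distinct integers, so a random union of
cells misses all the corresponding points with probability at most about `exp (-m/(2R))`.
A Borel-Cantelli argument shows that for `ω` in a dense `G_δ` set there is a set of measure at most
`1/4` for which the upper limit of the averages is at least `1/2` almost everywhere.
-/

open MeasureTheory Set Filter Topology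
open scoped ENNReal NNReal

namespace Pool.Agent.Lib.MP_83af8b_an

/-- number of colourings avoiding colour 0 on S -/
lemma card_avoid (q r : ℕ) (S : Finset (Fin q)) :
    (((Finset.univ : Finset (Fin q → Fin (r + 1))).filter (fun c => ∀ s ∈ S, c s ≠ 0)).card : ℝ)
      = ((r : ℝ) + 1) ^ q * (1 - 1 / ((r : ℝ) + 1)) ^ S.card := by
  have h1 : (Finset.univ : Finset (Fin q → Fin (r + 1))).filter (fun c => ∀ s ∈ S, c s ≠ 0)
      = Fintype.piFinset (fun s => if s ∈ S then (Finset.univ.erase (0 : Fin (r + 1))) else Finset.univ) := by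
    ext c
    simp only [Finset.mem_filter, Finset.mem_univ, true_and, Fintype.mem_piFinset]
    constructor
    · intro h s
      by_cases hs : s ∈ S
      · simp [hs, h s hs]
      · simp [hs]
    · intro h s hs
      have := h s
      simpa [hs] using this
  rw [h1, Fintype.card_piFinset]
  have h2 : ∀ s : Fin q, ((if s ∈ S then (Finset.univ.erase (0 : Fin (r + 1))) else Finset.univ).card : ℝ)
      = ((r : ℝ) + 1) * (if s ∈ S then (1 - 1 / ((r : ℝ) + 1)) else 1) := by
    intro s
    by_cases hs : s ∈ S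
    · simp only [hs, if_true]
      rw [Finset.card_erase_of_mem (Finset.mem_univ _), Finset.card_univ, Fintype.card_fin]
      have : (r : ℝ) + 1 ≠ 0 := by positivity
      field_simp
      simp
    · simp [hs]
  push_cast
  rw [Finset.prod_congr rfl (fun s _ => h2 s), Finset.prod_mul_distrib, Finset.prod_const,
    Finset.card_univ, Fintype.card_fin, Finset.prod_ite_mem, Finset.univ_inter, Finset.prod_const]

/-- number of colourings with colour 0 at s -/
lemma card_hit (q r : ℕ) (s : Fin q) :
    (((Finset.univ : Finset (Fin q → Fin (r + 1))).filter (fun c => c s = 0)).card : ℝ)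
      = ((r : ℝ) + 1) ^ q * (1 / ((r : ℝ) + 1)) := by
  have h := card_avoid q r {s}
  have h2 := Finset.card_filter_add_card_filter_not (s := (Finset.univ : Finset (Fin q → Fin (r + 1))))
    (fun c => c s = 0)
  have h3 : ((Finset.univ : Finset (Fin q → Fin (r + 1))).filter (fun c => ∀ t ∈ ({s} : Finset (Fin q)), c t ≠ 0))
      = (Finset.univ : Finset (Fin q → Fin (r + 1))).filter (fun c => ¬ c s = 0) := by
    ext c; simp
  rw [h3] at h
  have h4 : ((Finset.univ : Finset (Fin q → Fin (r + 1))).card : ℝ) = ((r : ℝ) + 1) ^ q := by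
    rw [Finset.card_univ, Fintype.card_fun, Fintype.card_fin, Fintype.card_fin]
    push_cast; ring
  rw [← h2] at h4
  push_cast at h4
  rw [h] at h4
  simp only [Finset.card_singleton, pow_one] at h4
  linarith

lemma exists_cells {X : Type*} [MeasurableSpace X] (μ : Measure X) [IsProbabilityMeasure μ]
    (q r : ℕ) (hr : 1 ≤ r) (κ : X → Fin q) (hκ : Measurable κ)
    {ι : Type*} [Fintype ι] (T : ι → X → X) (hT : ∀ i, Measurable (T i))
    (B : Set X) (hB : MeasurableSet B)
    (hinj : ∀ x, x ∉ B → Function.Injective (fun i => κ (T i x))) :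
    ∃ C : Set X, MeasurableSet C ∧ μ.real C ≤ 2 / ((r : ℝ) + 1) ∧
      MeasurableSet {x | ∀ i, T i x ∉ C} ∧
      μ.real {x | ∀ i, T i x ∉ C} ≤
        2 * (μ.real B + (1 - 1 / ((r : ℝ) + 1)) ^ (Fintype.card ι)) := by
  classical
  set ρ : ℝ := (r : ℝ) + 1 with hρ
  have hr' : (1 : ℝ) ≤ r := by exact_mod_cast hr
  have hρ2 : 2 ≤ ρ := by rw [hρ]; linarith
  have hρ0 : 0 < ρ := by linarith
  set n := Fintype.card ι with hn
  set θ : ℝ := (1 - 1 / ρ) ^ n with hθ
  have hθ0 : 0 < θ := by
    apply pow_pos
    rw [sub_pos, div_lt_one hρ0]; linarith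
  set η : ℝ := μ.real B + θ with hη
  have hη0 : 0 < η := by
    have : 0 ≤ μ.real B := measureReal_nonneg
    linarith
  let C : (Fin q → Fin (r + 1)) → Set X := fun c => {y | c (κ y) = 0}
  have hC : ∀ c, MeasurableSet (C c) := fun c => by
    have : C c = κ ⁻¹' {s | c s = 0} := rfl
    rw [this]
    exact hκ (Set.toFinite _).measurableSet
  let D : (Fin q → Fin (r + 1)) → Set X := fun c => {x | ∀ i, T i x ∉ C c}
  have hD : ∀ c, MeasurableSet (D c) := fun c => by
    have : D c = ⋂ i, (T i ⁻¹' (C c))ᶜ := by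
      ext x; simp [D]
    rw [this]
    exact MeasurableSet.iInter (fun i => (hT i (hC c)).compl)
  -- the two averages
  have s1 : ∑ c : Fin q → Fin (r + 1), μ.real (C c) = ρ ^ q * (1 / ρ) := by
    have e1 : ∀ c, μ.real (C c) = ∫ x, (C c).indicator (fun _ => (1 : ℝ)) x ∂μ := fun c => by
      rw [integral_indicator_const _ (hC c)]; simp
    rw [Finset.sum_congr rfl (fun c _ => e1 c), ← integral_finsetSum _ (fun c _ => ?_)]
    · have e2 : ∀ x, ∑ c : Fin q → Fin (r + 1), (C c).indicator (fun _ => (1 : ℝ)) x =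
          ρ ^ q * (1 / ρ) := by
        intro x
        rw [← card_hit q r (κ x), Finset.card_filter]
        push_cast
        apply Finset.sum_congr rfl
        intro c _
        simp [C, Set.indicator_apply]
      rw [integral_congr_ae (Filter.Eventually.of_forall e2)]
      simp
    · exact (integrable_const (1 : ℝ)).indicator (hC c)
  have s2 : ∑ c : Fin q → Fin (r + 1), μ.real (D c) ≤ ρ ^ q * η := by
    have e1 : ∀ c, μ.real (D c) = ∫ x, (D c).indicator (fun _ => (1 : ℝ)) x ∂μ := fun c => by
      rw [integral_indicator_const _ (hD c)]; simp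
    rw [Finset.sum_congr rfl (fun c _ => e1 c), ← integral_finsetSum _ (fun c _ => ?_)]
    · have e2 : ∀ x, ∑ c : Fin q → Fin (r + 1), (D c).indicator (fun _ => (1 : ℝ)) x ≤
          ρ ^ q * (B.indicator (fun _ => (1 : ℝ)) x) + ρ ^ q * θ := by
        intro x
        by_cases hx : x ∈ B
        · rw [indicator_of_mem hx]
          have : ∑ c : Fin q → Fin (r + 1), (D c).indicator (fun _ => (1 : ℝ)) x ≤
              ∑ c : Fin q → Fin (r + 1), (1 : ℝ) := by
            apply Finset.sum_le_sum
            intro c _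
            exact indicator_le_self' (fun _ _ => zero_le_one) x
          have h4 : ∑ c : Fin q → Fin (r + 1), (1 : ℝ) = ρ ^ q := by
            rw [Finset.sum_const, Finset.card_univ, Fintype.card_fun, Fintype.card_fin,
              Fintype.card_fin, hρ]
            push_cast; simp
          have : 0 < ρ ^ q * θ := by positivity
          linarith
        · rw [indicator_of_notMem hx]
          have hi := hinj x hx
          have hcard : (Finset.univ.image (fun i => κ (T i x))).card = n := by
            rw [Finset.card_image_of_injective _ hi, Finset.card_univ]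
          have := card_avoid q r (Finset.univ.image (fun i => κ (T i x)))
          rw [hcard, Finset.card_filter] at this
          have h5 : ∑ c : Fin q → Fin (r + 1), (D c).indicator (fun _ => (1 : ℝ)) x =
              ρ ^ q * θ := by
            rw [hθ, hρ, ← this]
            push_cast
            apply Finset.sum_congr rfl
            intro c _
            simp [C, D, Set.indicator_apply]
          rw [h5]; simp
      calc ∫ x, ∑ c : Fin q → Fin (r + 1), (D c).indicator (fun _ => (1 : ℝ)) x ∂μ
          ≤ ∫ x, (ρ ^ q * (B.indicator (fun _ => (1 : ℝ)) x) + ρ ^ q * θ) ∂μ := by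
            apply integral_mono
            · exact integrable_finsetSum _ (fun c _ => (integrable_const (1 : ℝ)).indicator (hD c))
            · exact (((integrable_const (1 : ℝ)).indicator hB).const_mul _).add (integrable_const _)
            · exact e2
        _ = ρ ^ q * η := by
            rw [integral_add (((integrable_const (1 : ℝ)).indicator hB).const_mul _)
              (integrable_const _), integral_const_mul, integral_indicator_const _ hB]
            simp [hη]
            ring
    · exact (integrable_const (1 : ℝ)).indicator (hD c)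
  have key : ∃ c ∈ (Finset.univ : Finset (Fin q → Fin (r + 1))),
      ρ * μ.real (C c) + μ.real (D c) / η ≤ 2 := by
    apply Finset.exists_le_of_sum_le
    · exact ⟨fun _ => 0, Finset.mem_univ _⟩
    · rw [Finset.sum_add_distrib, ← Finset.mul_sum, ← Finset.sum_div, s1]
      have h4 : ∑ c : Fin q → Fin (r + 1), (2 : ℝ) = 2 * ρ ^ q := by
        rw [Finset.sum_const, Finset.card_univ, Fintype.card_fun, Fintype.card_fin,
          Fintype.card_fin, hρ]
        push_cast; simp [mul_comm]
      rw [h4]
      have h5 : (∑ c : Fin q → Fin (r + 1), μ.real (D c)) / η ≤ ρ ^ q := by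
        rw [div_le_iff₀ hη0]; exact s2
      have h6 : ρ * (ρ ^ q * (1 / ρ)) = ρ ^ q := by field_simp
      rw [h6]; linarith
  obtain ⟨c, -, hc⟩ := key
  refine ⟨C c, hC c, ?_, hD c, ?_⟩
  · rw [le_div_iff₀ hρ0]
    have : 0 ≤ μ.real (D c) / η := by positivity
    linarith
  · show μ.real (D c) ≤ 2 * η
    have h1 : 0 ≤ ρ * μ.real (C c) := by positivity
    have h2 : μ.real (D c) / η ≤ 2 := by linarith
    rwa [div_le_iff₀ hη0] at h2


lemma norm_sub_le_rep (y y' : UnitAddCircle) :
    ‖y - y'‖ ≤ |((AddCircle.equivIco 1 0 y : Ico (0 : ℝ) (0 + 1)) : ℝ) -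
      ((AddCircle.equivIco 1 0 y' : Ico (0 : ℝ) (0 + 1)) : ℝ)| := by
  set a : ℝ := ((AddCircle.equivIco 1 0 y : Ico (0 : ℝ) (0 + 1)) : ℝ) with ha
  set b : ℝ := ((AddCircle.equivIco 1 0 y' : Ico (0 : ℝ) (0 + 1)) : ℝ) with hb
  have h1 : y = (a : UnitAddCircle) := ((AddCircle.equivIco 1 0).symm_apply_apply y).symm
  have h2 : y' = (b : UnitAddCircle) := ((AddCircle.equivIco 1 0).symm_apply_apply y').symm
  rw [h1, h2, ← AddCircle.coe_sub, UnitAddCircle.norm_eq]
  simpa using round_le (a - b) 0

instance : IsProbabilityMeasure (volume : Measure UnitAddCircle) :=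
  ⟨UnitAddCircle.measure_univ⟩

lemma exists_cell_map {ι : Type*} [Fintype ι] (M : ι → ℕ) (hM : Function.Injective M)
    {δ : ℝ} (hδ : 0 < δ) :
    ∃ q : ℕ, ∃ κ : UnitAddCircle → Fin q, Measurable κ ∧ ∃ B : Set UnitAddCircle,
      MeasurableSet B ∧ volume.real B ≤ δ ∧
      ∀ x, x ∉ B → Function.Injective (fun i => κ (M i • x)) := by
  classical
  obtain ⟨q, hq⟩ := exists_nat_gt (max 1 ((Fintype.card ι : ℝ) ^ 2 * 2 / δ))
  have hq1 : (1 : ℝ) < q := lt_of_le_of_lt (le_max_left _ _) hq
  have hq0 : (0 : ℝ) < q := by linarith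
  have hq2 : (Fintype.card ι : ℝ) ^ 2 * 2 / δ < q := lt_of_le_of_lt (le_max_right _ _) hq
  let rep : UnitAddCircle → ℝ := fun y => ((AddCircle.equivIco 1 0 y : Ico (0 : ℝ) (0 + 1)) : ℝ)
  have hrep0 : ∀ y, 0 ≤ rep y := fun y => (AddCircle.equivIco 1 0 y).2.1
  have hrep1 : ∀ y, rep y < 1 := fun y => by simpa using (AddCircle.equivIco 1 0 y).2.2
  have hrepm : Measurable rep :=
    measurable_subtype_coe.comp (AddCircle.measurableEquivIco 1 0).measurable
  have hlt : ∀ y, ⌊(q : ℝ) * rep y⌋₊ < q := fun y => by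
    rw [Nat.floor_lt (by have := hrep0 y; positivity)]
    nlinarith [hrep1 y, hrep0 y]
  let κ : UnitAddCircle → Fin q := fun y => ⟨⌊(q : ℝ) * rep y⌋₊, hlt y⟩
  have hκ : Measurable κ := by
    apply measurable_to_countable'
    intro s
    have : κ ⁻¹' {s} = (fun y => ⌊(q : ℝ) * rep y⌋₊) ⁻¹' {s.val} := by
      ext y
      simp [κ, Fin.ext_iff]
    rw [this]
    exact (Nat.measurable_floor.comp (hrepm.const_mul _)) (measurableSet_singleton _)
  have hκsep : ∀ y y', κ y = κ y' → ‖y - y'‖ ≤ 1 / q := by
    intro y y' h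
    have h1 : ⌊(q : ℝ) * rep y⌋₊ = ⌊(q : ℝ) * rep y'⌋₊ := by simpa [κ] using h
    refine (norm_sub_le_rep y y').trans ?_
    show |rep y - rep y'| ≤ 1 / q
    have a1 := Nat.floor_le (show 0 ≤ (q : ℝ) * rep y by have := hrep0 y; positivity)
    have a2 := Nat.floor_le (show 0 ≤ (q : ℝ) * rep y' by have := hrep0 y'; positivity)
    have b1 := Nat.lt_floor_add_one ((q : ℝ) * rep y)
    have b2 := Nat.lt_floor_add_one ((q : ℝ) * rep y')
    rw [h1] at a1 b1
    rw [le_div_iff₀ hq0, ← abs_of_pos hq0, ← abs_mul, abs_le]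
    constructor <;> nlinarith
  -- the bad set
  let P : Finset (ι × ι) := Finset.univ.filter (fun p => p.1 ≠ p.2)
  let A : ι × ι → Set UnitAddCircle := fun p =>
    {x | (((M p.1 : ℤ) - (M p.2 : ℤ)) • x) ∈ Metric.closedBall (0 : UnitAddCircle) (1 / q)}
  have hA : ∀ p ∈ P, MeasurableSet (A p) ∧ volume.real (A p) ≤ 2 / q := by
    intro p hp
    have hne : ((M p.1 : ℤ) - (M p.2 : ℤ)) ≠ 0 := by
      intro h
      have : M p.1 = M p.2 := by omega
      exact (Finset.mem_filter.mp hp).2 (hM this)
    have hmp := Measure.measurePreserving_zsmul (volume : Measure UnitAddCircle) hne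
    refine ⟨hmp.measurable measurableSet_closedBall, ?_⟩
    have h1 : volume (A p) = volume (Metric.closedBall (0 : UnitAddCircle) (1 / q)) :=
      hmp.measure_preimage measurableSet_closedBall.nullMeasurableSet
    rw [Measure.real, h1, AddCircle.volume_closedBall]
    rw [ENNReal.toReal_ofReal (by positivity)]
    calc min 1 (2 * (1 / (q : ℝ))) ≤ 2 * (1 / (q : ℝ)) := min_le_right _ _
      _ = 2 / q := by ring
  refine ⟨q, κ, hκ, ⋃ p ∈ P, A p, ?_, ?_, ?_⟩
  · exact Finset.measurableSet_biUnion _ (fun p hp => (hA p hp).1)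
  · calc volume.real (⋃ p ∈ P, A p) ≤ ∑ p ∈ P, volume.real (A p) :=
          measureReal_biUnion_finset_le _ _
      _ ≤ ∑ p ∈ P, (2 / q : ℝ) := Finset.sum_le_sum (fun p hp => (hA p hp).2)
      _ = P.card * (2 / q) := by rw [Finset.sum_const, nsmul_eq_mul]
      _ ≤ ((Fintype.card ι : ℝ) ^ 2) * (2 / q) := by
          apply mul_le_mul_of_nonneg_right _ (by positivity)
          have : P.card ≤ Fintype.card ι ^ 2 := by
            calc P.card ≤ (Finset.univ : Finset (ι × ι)).card := Finset.card_filter_le _ _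
              _ = Fintype.card ι ^ 2 := by rw [Finset.card_univ, Fintype.card_prod, sq]
          exact_mod_cast this
      _ ≤ δ := by
          rw [div_lt_iff₀ hδ] at hq2
          rw [mul_div_assoc', div_le_iff₀ hq0]
          linarith
  · intro x hx i j hij
    by_contra hne
    apply hx
    rw [mem_iUnion₂]
    refine ⟨(i, j), by simp [P, hne], ?_⟩
    have := hκsep _ _ hij
    show ((M i : ℤ) - (M j : ℤ)) • x ∈ Metric.closedBall (0 : UnitAddCircle) (1 / q)
    rw [mem_closedBall_zero_iff, sub_smul, natCast_zsmul, natCast_zsmul]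
    exact this


/-! ### Words -/

/-- the letter 2 -/
def two : ({2, 3} : Set ℕ) := ⟨2, by simp⟩
/-- the letter 3 -/
def three : ({2, 3} : Set ℕ) := ⟨3, by simp⟩

lemma prodSeq_succ (ω : Omega0) (n : ℕ) : prodSeq ω (n + 1) = prodSeq ω n * (ω n : ℕ) := by
  simp [prodSeq, Finset.prod_range_succ]

lemma prodSeq_pos (ω : Omega0) (n : ℕ) : 0 < prodSeq ω n := by
  apply Finset.prod_pos
  intro i _
  have := (ω i).2
  simp only [mem_insert_iff, mem_singleton_iff] at this
  omega

open Classical in
/-- continue a finite word by blocks of 2's of doubling lengths separated by single 3's -/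
noncomputable def wext (ω₀ : Omega0) (l : ℕ) : Omega0 := fun i =>
  if i < l then ω₀ i else if ∃ k, i + 2 = 2 ^ (k + 1) * (l + 1) then three else two

/-- the beginning of the `k`-th block -/
def start (l k : ℕ) : ℕ := 2 ^ k * (l + 1) - 1

lemma start_add (l k : ℕ) : start l k + 1 = 2 ^ k * (l + 1) := by
  unfold start
  have : 0 < 2 ^ k * (l + 1) := by positivity
  omega

lemma le_start (l k : ℕ) : l ≤ start l k := by
  have h := start_add l k
  have : 1 ≤ 2 ^ k := Nat.one_le_two_pow
  nlinarith

lemma start_zero (l : ℕ) : start l 0 = l := by simp [start]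

lemma start_succ (l k : ℕ) : start l (k + 1) = 2 * start l k + 1 := by
  have h := start_add l k
  have h' := start_add l (k + 1)
  rw [pow_succ] at h'
  have : 2 ^ k * 2 * (l + 1) = 2 * (2 ^ k * (l + 1)) := by ring
  omega

lemma start_mono {l k k' : ℕ} (h : k ≤ k') : start l k ≤ start l k' := by
  have h1 := start_add l k
  have h2 := start_add l k'
  have h3 : 2 ^ k * (l + 1) ≤ 2 ^ k' * (l + 1) :=
    Nat.mul_le_mul_right _ (Nat.pow_le_pow_right (by norm_num) h)
  omega

lemma wext_two (ω₀ : Omega0) (l k n : ℕ) (hn : n < start l k) :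
    (wext ω₀ l (start l k + n) : ℕ) = 2 := by
  have hs := start_add l k
  have hl := le_start l k
  have h1 : ¬ (start l k + n < l) := by omega
  have h2 : ¬ ∃ k', start l k + n + 2 = 2 ^ (k' + 1) * (l + 1) := by
    rintro ⟨k', hk'⟩
    have e1 : 2 ^ k * (l + 1) < 2 ^ (k' + 1) * (l + 1) := by omega
    have e2 : 2 ^ (k' + 1) * (l + 1) < 2 ^ (k + 1) * (l + 1) := by
      rw [pow_succ 2 k]
      have : 2 ^ k * 2 * (l + 1) = 2 * (2 ^ k * (l + 1)) := by ring
      omega
    have e3 := Nat.lt_of_mul_lt_mul_right e1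
    have e4 := Nat.lt_of_mul_lt_mul_right e2
    have e5 := (Nat.pow_lt_pow_iff_right (by norm_num : 1 < 2)).mp e3
    have e6 := (Nat.pow_lt_pow_iff_right (by norm_num : 1 < 2)).mp e4
    omega
  simp [wext, h1, h2, two]

lemma wext_three (ω₀ : Omega0) (l k : ℕ) : (wext ω₀ l (2 * start l k) : ℕ) = 3 := by
  have hs := start_add l k
  have hl := le_start l k
  have h1 : ¬ (2 * start l k < l) := by
    rcases Nat.eq_zero_or_pos l with h | h
    · omega
    · omega
  have h2 : ∃ k', 2 * start l k + 2 = 2 ^ (k' + 1) * (l + 1) := by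
    refine ⟨k, ?_⟩
    rw [pow_succ]
    have : 2 ^ k * 2 * (l + 1) = 2 * (2 ^ k * (l + 1)) := by ring
    omega
  simp [wext, h1, h2, three]

lemma wext_lt (ω₀ : Omega0) (l i : ℕ) (h : i < l) : wext ω₀ l i = ω₀ i := by
  simp [wext, h]

lemma prodSeq_block (ω₀ : Omega0) (l k n : ℕ) (hn : n ≤ start l k) :
    prodSeq (wext ω₀ l) (start l k + n) = prodSeq (wext ω₀ l) (start l k) * 2 ^ n := by
  induction n with
  | zero => simp
  | succ n ih =>
    rw [← add_assoc, prodSeq_succ, ih (by omega), wext_two ω₀ l k n (by omega), pow_succ]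
    ring

/-- exponents of 2 -/
def expo (l : ℕ) : ℕ → ℕ
  | 0 => 0
  | k + 1 => expo l k + start l k

lemma prodSeq_start (ω₀ : Omega0) (l k : ℕ) :
    prodSeq (wext ω₀ l) (start l k) = prodSeq (wext ω₀ l) l * 2 ^ (expo l k) * 3 ^ k := by
  induction k with
  | zero => simp [start_zero, expo]
  | succ k ih =>
    rw [start_succ, prodSeq_succ, wext_three, two_mul, prodSeq_block ω₀ l k _ le_rfl, ih, expo]
    rw [pow_add, pow_succ]
    ring

lemma mult_inj (ω₀ : Omega0) (l L m : ℕ) :
    Function.Injective (fun p : Fin m × Fin L =>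
      2 ^ (L + (p.2 : ℕ)) * prodSeq (wext ω₀ l) (start l p.1)) := by
  rintro ⟨k, i⟩ ⟨k', i'⟩ h
  simp only [prodSeq_start] at h
  set D := prodSeq (wext ω₀ l) l with hD
  have hD0 : 0 < D := prodSeq_pos _ _
  have h1 : D * (2 ^ (L + (i : ℕ) + expo l k) * 3 ^ (k : ℕ)) =
      D * (2 ^ (L + (i' : ℕ) + expo l k') * 3 ^ (k' : ℕ)) := by
    rw [pow_add _ (L + (i : ℕ)), pow_add _ (L + (i' : ℕ))]
    calc _ = 2 ^ (L + (i : ℕ)) * (D * 2 ^ expo l k * 3 ^ (k : ℕ)) := by ring
      _ = _ := by rw [h]; ring
  have h2 := Nat.eq_of_mul_eq_mul_left hD0 h1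
  have h3 : (k : ℕ) = k' := by
    have := congrArg (fun n => n.factorization 3) h2
    simp only [Nat.factorization_mul (pow_ne_zero _ (by norm_num : (2 : ℕ) ≠ 0))
      (pow_ne_zero _ (by norm_num : (3 : ℕ) ≠ 0)), Nat.factorization_pow] at this
    simp [Nat.Prime.factorization Nat.prime_two, Nat.Prime.factorization Nat.prime_three] at this
    exact this
  have h4 : k = k' := Fin.ext h3
  subst h4
  have h5 := Nat.eq_of_mul_eq_mul_right (by positivity) h2
  have h6 := Nat.pow_right_injective (le_refl 2) h5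
  simp only [Prod.mk.injEq, true_and]
  apply Fin.ext
  omega

/-- indicator of a set, real valued -/
noncomputable def ind (E : Set UnitAddCircle) (x : UnitAddCircle) : ℝ := E.indicator (fun _ => 1) x

lemma ind_nonneg (E : Set UnitAddCircle) (x : UnitAddCircle) : 0 ≤ ind E x :=
  indicator_nonneg (fun _ _ => zero_le_one) x

/-- the points where all averages between times `j` and `L` are less than `1/2` -/
def bad (ω : Omega0) (E : Set UnitAddCircle) (j L : ℕ) : Set UnitAddCircle :=
  {x | ∀ N, j ≤ N → N ≤ L → ∑ n ∈ Finset.Icc 1 N, ind E (prodSeq ω n • x) < (N : ℝ) / 2}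

lemma density (ω₀ : Omega0) (l : ℕ) (hl : 1 ≤ l) {ε : ℝ} (hε : 0 < ε) :
    ∃ L : ℕ, ∃ E : Set UnitAddCircle, MeasurableSet E ∧ volume.real E ≤ ε ∧
      volume.real (bad (wext ω₀ l) E l L) ≤ ε := by
  -- parameters
  obtain ⟨R, hR⟩ := exists_nat_gt (max 1 (2 / ε))
  have hR1 : (1 : ℝ) < R := lt_of_le_of_lt (le_max_left _ _) hR
  have hR0 : (0 : ℝ) < R := by linarith
  have hR2 : 2 / ε < R := lt_of_le_of_lt (le_max_right _ _) hR
  obtain ⟨m, hm⟩ : ∃ m : ℕ, Real.exp (-(m / (2 * R))) ≤ ε / 4 := by
    have ht : Tendsto (fun m : ℕ => Real.exp (-((m : ℝ) / (2 * R)))) atTop (𝓝 0) := by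
      apply Real.tendsto_exp_neg_atTop_nhds_zero.comp
      exact tendsto_natCast_atTop_atTop.atTop_div_const (by positivity)
    exact (ht.eventually_le_const (by positivity)).exists
  set L := start l m with hL
  have hL1 : 1 ≤ L := hl.trans (le_start l m)
  have hLr : (1 : ℝ) ≤ L := by exact_mod_cast hL1
  have hRn : 1 < R := by exact_mod_cast hR1
  obtain ⟨q, κ, hκ, B, hB, hBm, hinj⟩ := exists_cell_map _ (mult_inj ω₀ l L m)
    (show 0 < ε / 4 by positivity)
  have hr1 : 1 ≤ 2 * L * R - 1 := by
    have : 2 * 1 * 1 ≤ 2 * L * R := by gcongr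
    omega
  obtain ⟨C, hC, hCm, hDm, hD⟩ := exists_cells (volume : Measure UnitAddCircle) q (2 * L * R - 1)
    hr1 κ hκ (fun (p : Fin m × Fin L) (x : UnitAddCircle) =>
      (2 ^ (L + (p.2 : ℕ)) * prodSeq (wext ω₀ l) (start l p.1)) • x)
    (fun p => measurable_const_smul _) B hB hinj
  have hρ : (((2 * L * R - 1 : ℕ) : ℝ) + 1) = 2 * L * R := by
    rw [Nat.cast_sub (by omega)]
    push_cast
    ring
  rw [hρ] at hCm hD
  have hρ0 : (0 : ℝ) < 2 * L * R := by positivity
  -- the set E
  let E : Set UnitAddCircle := ⋃ i ∈ Finset.range (2 * L), (fun x : UnitAddCircle => 2 ^ i • x) ⁻¹' C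
  have hmp : ∀ i : ℕ, MeasurePreserving (fun x : UnitAddCircle => 2 ^ i • x) volume volume := by
    intro i
    have h := Measure.measurePreserving_zsmul (volume : Measure UnitAddCircle)
      (n := ((2 ^ i : ℕ) : ℤ)) (by positivity)
    simpa only [natCast_zsmul] using h
  have hE : MeasurableSet E :=
    Finset.measurableSet_biUnion _ (fun i _ => (hmp i).measurable hC)
  refine ⟨2 * L, E, hE, ?_, ?_⟩
  · calc volume.real E ≤ ∑ i ∈ Finset.range (2 * L),
          volume.real ((fun x : UnitAddCircle => 2 ^ i • x) ⁻¹' C) :=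
          measureReal_biUnion_finset_le _ _
      _ = ∑ i ∈ Finset.range (2 * L), volume.real C := by
          apply Finset.sum_congr rfl
          intro i _
          rw [Measure.real, (hmp i).measure_preimage hC.nullMeasurableSet, Measure.real]
      _ = 2 * L * volume.real C := by
          rw [Finset.sum_const, Finset.card_range, nsmul_eq_mul]; push_cast; ring
      _ ≤ 2 * L * (2 / (2 * L * R)) := by gcongr
      _ = 2 / R := by field_simp
      _ ≤ ε := by
          rw [div_lt_iff₀ hε] at hR2
          rw [div_le_iff₀ hR0]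
          linarith
  · have hsub : bad (wext ω₀ l) E l (2 * L) ⊆ {x | ∀ p : Fin m × Fin L,
        (2 ^ (L + (p.2 : ℕ)) * prodSeq (wext ω₀ l) (start l p.1)) • x ∉ C} := by
      intro x hx
      rintro ⟨k, i⟩ hmem
      simp only at hmem
      have hkm : start l k ≤ L := start_mono k.2.le
      have hlk : l ≤ start l k := le_start l k
      have h1 := hx (2 * start l k) (by omega) (by omega)
      have h2 : ∀ n ∈ Finset.Ioc (start l k) (2 * start l k),
          ind E (prodSeq (wext ω₀ l) n • x) = 1 := by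
        intro n hn
        rw [Finset.mem_Ioc] at hn
        obtain ⟨j, rfl⟩ := Nat.exists_eq_add_of_lt hn.1
        have hj : j + 1 ≤ start l k := by omega
        unfold ind
        rw [indicator_of_mem]
        rw [mem_iUnion₂]
        refine ⟨L + i - (j + 1), by rw [Finset.mem_range]; omega, ?_⟩
        show 2 ^ (L + (i : ℕ) - (j + 1)) • (prodSeq (wext ω₀ l) (start l k + j + 1) • x) ∈ C
        rw [add_assoc, prodSeq_block ω₀ l k (j + 1) hj, ← mul_smul]
        have : 2 ^ (L + (i : ℕ) - (j + 1)) * (prodSeq (wext ω₀ l) (start l k) * 2 ^ (j + 1)) =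
            2 ^ (L + (i : ℕ)) * prodSeq (wext ω₀ l) (start l k) := by
          calc _ = (2 ^ (L + (i : ℕ) - (j + 1)) * 2 ^ (j + 1)) * prodSeq (wext ω₀ l) (start l k) := by
                ring
            _ = _ := by rw [← pow_add, Nat.sub_add_cancel (by omega)]
        rw [this]
        exact hmem
      have h3 : (start l k : ℝ) ≤ ∑ n ∈ Finset.Icc 1 (2 * start l k),
          ind E (prodSeq (wext ω₀ l) n • x) := by
        calc (start l k : ℝ) = ∑ n ∈ Finset.Ioc (start l k) (2 * start l k), (1 : ℝ) := by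
              rw [Finset.sum_const, Nat.card_Ioc, nsmul_eq_mul, mul_one]
              congr 1; omega
          _ = ∑ n ∈ Finset.Ioc (start l k) (2 * start l k),
                ind E (prodSeq (wext ω₀ l) n • x) := by
              apply Finset.sum_congr rfl
              intro n hn
              rw [h2 n hn]
          _ ≤ _ := by
              apply Finset.sum_le_sum_of_subset_of_nonneg
              · intro n hn
                rw [Finset.mem_Ioc] at hn
                rw [Finset.mem_Icc]
                omega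
              · intro n _ _
                exact ind_nonneg _ _
      push_cast at h1
      linarith
    calc volume.real (bad (wext ω₀ l) E l (2 * L)) ≤ volume.real {x | ∀ p : Fin m × Fin L,
          (2 ^ (L + (p.2 : ℕ)) * prodSeq (wext ω₀ l) (start l p.1)) • x ∉ C} :=
          measureReal_mono hsub
      _ ≤ _ := hD
      _ ≤ 2 * (ε / 4 + ε / 4) := by
          gcongr
          rw [Fintype.card_prod, Fintype.card_fin, Fintype.card_fin]
          refine le_trans ?_ hm
          have h1 : 1 - 1 / (2 * L * R : ℝ) ≤ Real.exp (-(1 / (2 * L * R))) :=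
            Real.one_sub_le_exp_neg _
          have h2 : 0 ≤ 1 - 1 / (2 * L * R : ℝ) := by
            rw [sub_nonneg, div_le_one hρ0]
            nlinarith
          calc (1 - 1 / (2 * L * R : ℝ)) ^ (m * L) ≤ (Real.exp (-(1 / (2 * L * R)))) ^ (m * L) := by
                gcongr
            _ = Real.exp (-(m / (2 * R))) := by
                rw [← Real.exp_nat_mul]
                congr 1
                push_cast
                field_simp
      _ = ε := by ring


/-! ### Khintchin sequences and the final argument -/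

lemma bad_mono (ω : Omega0) (E : Set UnitAddCircle) {j l L : ℕ} (h : j ≤ l) :
    bad ω E j L ⊆ bad ω E l L := fun _ hx N h1 h2 => hx N (h.trans h1) h2

lemma prodSeq_congr {ω ω' : Omega0} {L : ℕ} (h : ∀ i < L, ω' i = ω i) {n : ℕ} (hn : n ≤ L) :
    prodSeq ω' n = prodSeq ω n := by
  apply Finset.prod_congr rfl
  intro i hi
  rw [h i (lt_of_lt_of_le (Finset.mem_range.mp hi) hn)]

lemma bad_congr {ω ω' : Omega0} {L : ℕ} (h : ∀ i < L, ω' i = ω i) (E : Set UnitAddCircle) (j : ℕ) :
    bad ω' E j L = bad ω E j L := by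
  ext x
  apply forall_congr'; intro N
  apply forall_congr'; intro h1
  apply forall_congr'; intro h2
  have : ∑ n ∈ Finset.Icc 1 N, ind E (prodSeq ω' n • x) =
      ∑ n ∈ Finset.Icc 1 N, ind E (prodSeq ω n • x) := by
    apply Finset.sum_congr rfl
    intro n hn
    rw [prodSeq_congr h ((Finset.mem_Icc.mp hn).2.trans h2)]
  rw [this]

/-- the open dense sets -/
def U (j : ℕ) : Set Omega0 :=
  {ω | ∃ L : ℕ, ∃ E : Set UnitAddCircle, MeasurableSet E ∧ volume.real E ≤ (1 / 2) ^ (j + 3) ∧
    volume.real (bad ω E j L) ≤ (1 / 2) ^ (j + 3)}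

lemma isOpen_U (j : ℕ) : IsOpen (U j) := by
  rw [isOpen_iff_mem_nhds]
  rintro ω ⟨L, E, hE, h1, h2⟩
  have hn : {ω' : Omega0 | ∀ i ∈ Finset.range L, ω' i ∈ ({ω i} : Set _)} ∈ 𝓝 ω := by
    have := set_pi_mem_nhds (Finset.range L).finite_toSet (x := ω)
      (s := fun i => ({ω i} : Set ({2, 3} : Set ℕ))) (fun i _ => by
        exact (isOpen_discrete _).mem_nhds (mem_singleton _))
    exact this
  filter_upwards [hn] with ω' hω'
  have hc : ∀ i < L, ω' i = ω i := fun i hi => hω' i (Finset.mem_range.mpr hi)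
  exact ⟨L, E, hE, h1, by rw [bad_congr hc]; exact h2⟩

lemma dense_U (j : ℕ) : Dense (U j) := by
  intro ω
  have ht : Tendsto (fun l : ℕ => wext ω (l + j + 1)) atTop (𝓝 ω) := by
    rw [tendsto_pi_nhds]
    intro i
    apply tendsto_nhds_of_eventually_eq
    filter_upwards [eventually_ge_atTop i] with l hl
    exact wext_lt _ _ _ (by omega)
  refine mem_closure_of_tendsto ht (Filter.Eventually.of_forall (fun l => ?_))
  obtain ⟨L, E, hE, h1, h2⟩ := density ω (l + j + 1) (by omega)
    (show (0 : ℝ) < (1 / 2) ^ (j + 3) by positivity)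
  exact ⟨L, E, hE, h1, (measureReal_mono (bad_mono _ _ (by omega))).trans h2⟩

lemma sum_bound {s : ℕ → Set UnitAddCircle} (h : ∀ j, volume.real (s j) ≤ (1 / 2) ^ (j + 3)) :
    ∑' j, volume (s j) ≤ ENNReal.ofReal (1 / 4) := by
  have h1 : ∀ j, volume (s j) ≤ ENNReal.ofReal ((1 / 2) ^ (j + 3)) := fun j => by
    rw [← ENNReal.ofReal_toReal (measure_ne_top volume (s j))]
    exact ENNReal.ofReal_le_ofReal (h j)
  have hs : Summable (fun j : ℕ => ((1 : ℝ) / 2) ^ (j + 3)) :=
    (summable_nat_add_iff 3).mpr summable_geometric_two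
  calc ∑' j, volume (s j) ≤ ∑' j : ℕ, ENNReal.ofReal (((1 : ℝ) / 2) ^ (j + 3)) :=
        ENNReal.tsum_le_tsum h1
    _ = ENNReal.ofReal (∑' j : ℕ, ((1 : ℝ) / 2) ^ (j + 3)) :=
        (ENNReal.ofReal_tsum_of_nonneg (fun j => by positivity) hs).symm
    _ = ENNReal.ofReal (1 / 4) := by
        congr 1
        have : ∀ j : ℕ, ((1 : ℝ) / 2) ^ (j + 3) = (1 / 8) * (1 / 2) ^ j := fun j => by
          rw [pow_add]; ring
        simp_rw [this]
        rw [tsum_mul_left, tsum_geometric_two]
        norm_num

lemma not_khintchin (ω : Omega0) (h : ∀ j, ω ∈ U j) : ¬ IsKhintchin (prodSeq ω) := by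
  choose L E hE hEm hbad using h
  intro hK
  have hEu : MeasurableSet (⋃ j, E j) := MeasurableSet.iUnion hE
  have hmeas : volume.real (⋃ j, E j) ≤ 1 / 4 := by
    have h1 : volume (⋃ j, E j) ≤ ENNReal.ofReal (1 / 4) :=
      (measure_iUnion_le _).trans (sum_bound hEm)
    exact ENNReal.toReal_le_of_le_ofReal (by norm_num) h1
  have hK1 := hK (ind (⋃ j, E j)) ((integrable_const (1 : ℝ)).indicator hEu)
  have hint : ∫ y, ind (⋃ j, E j) y = volume.real (⋃ j, E j) := by
    unfold ind
    rw [integral_indicator_const _ hEu]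
    simp
  rw [hint] at hK1
  have hBC : ∀ᵐ x : UnitAddCircle, ∀ᶠ j in atTop, x ∉ bad ω (E j) j (L j) :=
    ae_eventually_notMem (ne_top_of_le_ne_top ENNReal.ofReal_ne_top (sum_bound hbad))
  obtain ⟨x, hx1, hx2⟩ := (hK1.and hBC).exists
  have hlt : ∀ᶠ N : ℕ in atTop,
      (∑ n ∈ Finset.Icc 1 N, ind (⋃ j, E j) (prodSeq ω n • x)) / N < 1 / 2 :=
    hx1.eventually_lt_const (by linarith)
  obtain ⟨N₀, hN₀⟩ := eventually_atTop.mp hlt
  obtain ⟨j₀, hj₀⟩ := eventually_atTop.mp hx2
  set j := max (max N₀ j₀) 1 with hj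
  have h1 := hj₀ j (le_trans (le_max_right _ _) (le_max_left _ _))
  simp only [bad, mem_ofPred_eq, not_forall, not_lt] at h1
  obtain ⟨N, hN1, hN2, hN3⟩ := h1
  have h2 := hN₀ N (le_trans (le_trans (le_max_left _ _) (le_max_left _ _)) hN1)
  have hN : (0 : ℝ) < N := by
    have : 1 ≤ N := le_trans (le_max_right _ _) hN1
    exact_mod_cast this
  rw [div_lt_iff₀ hN] at h2
  have h3 : ∑ n ∈ Finset.Icc 1 N, ind (E j) (prodSeq ω n • x) ≤
      ∑ n ∈ Finset.Icc 1 N, ind (⋃ j, E j) (prodSeq ω n • x) := by
    apply Finset.sum_le_sum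
    intro n _
    unfold ind
    exact indicator_le_indicator_of_subset (subset_iUnion _ _) (fun _ => zero_le_one) _
  linarith

theorem main : IsMeagre K23 := by
  rw [IsMeagre]
  have h : (⋂ j, U j) ∈ residual Omega0 :=
    countable_iInter_mem.mpr (fun j => residual_of_dense_open (isOpen_U j) (dense_U j))
  refine Filter.mem_of_superset h ?_
  intro ω hω hK
  exact not_khintchin ω (fun j => mem_iInter.mp hω j) hK

end Pool.Agent.Lib.MP_83af8b_an
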